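import Pool.Agent.K6.H18.Cubic.Reduced
import Pool.Agent.K6.H18.Cubic.Linear

/-!
# Rational independence and `l`-adic independence of cycle classes
-/

set_option autoImplicit false

open MvPolynomial AlgebraicGeometry CategoryTheory

namespace Pool.Agent.K6.H98.CL

open Pool.Agent.K6.H18.Cubic Pool.Agent.K6.H18.Cubic.Alg

section
variable (L : Type) [Field L] {V V₀ : Type} [AddCommGroup V] [Module L V]
  [AddCommGroup V₀] [Module L V₀]

/-- Finite families in the subgroup `S` of the vector space `V` over `L` which are linearly independent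
over `ℤ` are linearly independent over `L`. If `S` is a `ℚ`-subspace then this says that the map
`S ⊗_ℚ L ⟶ V` is injective (independence over `ℤ` and over `ℚ` are the same). -/
def IsIndependent (S : AddSubgroup V) : Prop :=
  ∀ (n : ℕ) (y : Fin n → V), (∀ i, y i ∈ S) → LinearIndependent ℤ y → LinearIndependent L y

variable {L}

/-- `j` is injective and maps `S` into `S₀`. -/
structure IsSpecialisation (j : V →ₗ[L] V₀) (S : AddSubgroup V) (S₀ : AddSubgroup V₀) : Prop where
  injective : Function.Injective j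
  maps : ∀ y ∈ S, j y ∈ S₀

theorem IsSpecialisation.independent {j : V →ₗ[L] V₀} {S : AddSubgroup V} {S₀ : AddSubgroup V₀}
    (hj : IsSpecialisation j S S₀) (h : IsIndependent L S₀) : IsIndependent L S := by
  intro n y hy hind
  have h1 : LinearIndependent ℤ (fun i => j (y i)) := by
    have h2 := hind.map' (j.toAddMonoidHom.toIntLinearMap)
      (LinearMap.ker_eq_bot.2 hj.injective)
    exact h2
  have h2 := h n (fun i => j (y i)) (fun i => hj.maps _ (hy i)) h1
  exact LinearIndependent.of_comp j h2

/-- The pairings `B i` have rational values on `S` and `S' i`, and an element of `S` which is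
orthogonal to all `S' i` is zero. -/
structure IsNumerical {I : Type} {V' : I → Type} [∀ i, AddCommGroup (V' i)] [∀ i, Module L (V' i)]
    (B : ∀ i, V →ₗ[L] V' i →ₗ[L] L) (S : AddSubgroup V) (S' : ∀ i, AddSubgroup (V' i)) : Prop where
  rational : ∀ i, ∀ y ∈ S, ∀ z ∈ S' i, ∃ q : ℚ, B i y z = q
  nondegenerate : ∀ y ∈ S, (∀ i, ∀ z ∈ S' i, B i y z = 0) → y = 0

theorem IsNumerical.independent [CharZero L] {I : Type} {V' : I → Type}
    [∀ i, AddCommGroup (V' i)] [∀ i, Module L (V' i)] {B : ∀ i, V →ₗ[L] V' i →ₗ[L] L}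
    {S : AddSubgroup V} {S' : ∀ i, AddSubgroup (V' i)} (hB : IsNumerical B S S') :
    IsIndependent L S := by
  intro n y hy hind
  rw [Fintype.linearIndependent_iff]
  by_contra hcon
  push Not at hcon
  obtain ⟨g, hg, i₀, hi₀⟩ := hcon
  -- normalise
  have hμ : ∑ i, (g i / g i₀) • y i = 0 := by
    have : ∑ i, (g i / g i₀) • y i = (g i₀)⁻¹ • ∑ i, g i • y i := by
      rw [Finset.smul_sum]
      refine Finset.sum_congr rfl fun i _ => ?_
      rw [smul_smul, div_eq_inv_mul]
    rw [this, hg, smul_zero]
  -- a rational form with value one at one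
  obtain ⟨φ, hφ⟩ := LinearMap.exists_leftInverse_of_injective (Algebra.linearMap ℚ L)
    (LinearMap.ker_eq_bot.2 (algebraMap ℚ L).injective)
  have hφ1 : φ 1 = 1 := by
    have := LinearMap.congr_fun hφ 1
    simpa using this
  let a : Fin n → ℚ := fun i => φ (g i / g i₀)
  have ha : a i₀ = 1 := by
    simp only [a]
    rw [div_self hi₀, hφ1]
  have hsum : ∀ t, ∀ z ∈ S' t, ∀ q : Fin n → ℚ, (∀ i, B t (y i) z = q i) →
      ∑ i, a i * q i = 0 := by
    intro t z _ q hq
    have h1 : ∑ i, (g i / g i₀) * (q i : L) = 0 := by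
      have h2 := congrArg (fun v => B t v z) hμ
      simp only [map_sum, map_smul, LinearMap.sum_apply, LinearMap.smul_apply, smul_eq_mul,
        map_zero, LinearMap.zero_apply] at h2
      rw [← h2]
      exact Finset.sum_congr rfl fun i _ => by rw [hq i]
    have h3 := congrArg φ h1
    rw [map_zero, map_sum] at h3
    rw [← h3]
    refine Finset.sum_congr rfl fun i _ => ?_
    have h4 : (g i / g i₀) * (q i : L) = (q i) • (g i / g i₀) := by
      rw [Algebra.smul_def, mul_comm]
      rfl
    rw [h4, map_smul, smul_eq_mul, mul_comm]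
  -- clear denominators
  obtain ⟨N, hN, hb⟩ : ∃ N : ℤ, N ≠ 0 ∧ ∀ i, ∃ b : ℤ, (b : ℚ) = N * a i := by
    obtain ⟨⟨N, hN⟩, hb⟩ := IsLocalization.exist_integer_multiples (nonZeroDivisors ℤ)
      Finset.univ a
    refine ⟨N, nonZeroDivisors.ne_zero hN, fun i => ?_⟩
    obtain ⟨b, hb⟩ := hb i (Finset.mem_univ i)
    refine ⟨b, ?_⟩
    simpa [Algebra.smul_def] using hb
  choose b hb using hb
  have hs : ∑ i, b i • y i = 0 := by
    apply hB.nondegenerate _ (S.sum_mem fun i _ => S.zsmul_mem (hy i) _)
    intro t z hz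
    choose q hq using fun i => hB.rational t (y i) (hy i) z hz
    have h1 := hsum t z hz q hq
    have h2 : ∑ i, (b i : ℚ) * q i = 0 := by
      have : ∑ i, (b i : ℚ) * q i = N * ∑ i, a i * q i := by
        rw [Finset.mul_sum]
        exact Finset.sum_congr rfl fun i _ => by rw [hb i, mul_assoc]
      rw [this, h1, mul_zero]
    have h3 : B t (∑ i, b i • y i) z = ((∑ i, (b i : ℚ) * q i : ℚ) : L) := by
      rw [map_sum, LinearMap.sum_apply, Rat.cast_sum]
      refine Finset.sum_congr rfl fun i _ => ?_
      rw [map_zsmul, LinearMap.smul_apply, hq i, Rat.cast_mul, Rat.cast_intCast, zsmul_eq_mul]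
    rw [h3, h2, Rat.cast_zero]
  have h0 := (Fintype.linearIndependent_iff.1 hind) b hs i₀
  have h1 := hb i₀
  rw [h0, ha, mul_one] at h1
  exact hN (by exact_mod_cast h1.symm)

end

/-- The classes of cycles of dimension `b` on `Spec B` which are linearly independent over `ℚ` are
linearly independent over `L`. -/
def Independent {k L : Type} [CommRing k] [Field L] {M : BM k} {T : LinearBM k L}
    (c : M.Hom T.toBM) (B : Alg k) (b : ℤ) : Prop :=
  IsIndependent L (c.map B 0 b).range

theorem inherited_independent {k L : Type} [Field k] [Field L] {M : BM k} {T : LinearBM k L}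
    (c : M.Hom T.toBM) : Inherited (Independent c) := by
  rintro B C n ⟨s, hs, h1, h2⟩ b h
  let i' : T.H B 0 b →ₗ[L] T.H C 0 (b + n) :=
    { toFun := s.incl T.toBM 0 b
      map_add' := (s.incl T.toBM 0 b).map_add
      map_smul' := fun t x => (h1 _ _ (T.scalar t) 0 b x).symm }
  refine IsSpecialisation.independent (j := i') ⟨?_, ?_⟩ h
  · intro x y hxy
    have h3 : s.inclf x = s.inclf y := hxy
    rw [← hs T.toBM 0 b x, h3, hs]
  · rintro y ⟨x, rfl⟩
    exact ⟨s.incl M 0 b x, h1 _ _ c 0 b x⟩

end Pool.Agent.K6.H98.CL
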